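import Mathlib
import Pool.Agent.Lib.MP_c3d375_an.Spec

/-!
# MP_c3d375: `W(C₁, C₂)` is not always convex.  Definitions

`C1 a e` is the closed disc with a small bump at the point `1`, `C2` has a corner of 90 degrees at `0`.
`Hol r` is the algebra of functions holomorphic on the disc of radius `r`.
`Sys a e r H` is a functional calculus with the perturbed Berger-Kato positivity.
See `Paper.md`.
-/

open Complex Metric Set Filter Topology ComplexConjugate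

namespace C3N

/-- the Riemann map of `C₁` -/
noncomputable def chi (a e : ℝ) (z : ℂ) : ℂ := z + ((e / a : ℝ) : ℂ) / (1 - a * z)

/-- its derivative -/
noncomputable def chid (a e : ℝ) (z : ℂ) : ℂ := 1 + (e : ℂ) / (1 - a * z) ^ 2

/-- the first set -/
def C1 (a e : ℝ) : Set ℂ := chi a e '' closedBall 0 1

/-- the second set -/
def C2 : Set ℂ := {w : ℂ | 0 ≤ w.re ∧ w.re ≤ 1 / 2 ∧ |w.im| ≤ w.re - w.re ^ 3}

/-! ### Holomorphic functions on a disc -/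

/-- the algebra of holomorphic functions on the disc of radius `r` (functions on the subtype) -/
def Hol (r : ℝ) : Subalgebra ℂ (ball (0 : ℂ) r → ℂ) where
  carrier := {φ | ∃ ψ : ℂ → ℂ, DifferentiableOn ℂ ψ (ball 0 r) ∧ ∀ z : ball (0 : ℂ) r, φ z = ψ z}
  mul_mem' := by
    rintro _ _ ⟨ψ, h1, h2⟩ ⟨ψ', h1', h2'⟩
    exact ⟨fun z => ψ z * ψ' z, h1.mul h1', fun z => by simp [h2, h2']⟩
  add_mem' := by
    rintro _ _ ⟨ψ, h1, h2⟩ ⟨ψ', h1', h2'⟩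
    exact ⟨fun z => ψ z + ψ' z, h1.add h1', fun z => by simp [h2, h2']⟩
  algebraMap_mem' := fun c => ⟨fun _ => c, differentiableOn_const _, fun z => by simp⟩

open Classical in
/-- the underlying function, `0` outside the disc -/
noncomputable def fn {r : ℝ} (φ : Hol r) (z : ℂ) : ℂ :=
  if h : z ∈ ball (0 : ℂ) r then φ.1 ⟨z, h⟩ else 0

open Classical in
/-- the element of `Hol r` given by a function (`0` if it is not holomorphic) -/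
noncomputable def hol (r : ℝ) (ψ : ℂ → ℂ) : Hol r :=
  if h : DifferentiableOn ℂ ψ (ball 0 r) then ⟨fun z => ψ z, ψ, h, fun _ => rfl⟩ else 0

theorem fn_apply {r : ℝ} (φ : Hol r) {z : ℂ} (h : z ∈ ball (0 : ℂ) r) : fn φ z = φ.1 ⟨z, h⟩ := by
  simp only [fn, dif_pos h]

theorem fn_hol {r : ℝ} {ψ : ℂ → ℂ} (hψ : DifferentiableOn ℂ ψ (ball 0 r)) {z : ℂ}
    (h : z ∈ ball (0 : ℂ) r) : fn (hol r ψ) z = ψ z := by
  rw [fn_apply _ h, hol, dif_pos hψ]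

theorem fn_add {r : ℝ} (φ ψ : Hol r) (z : ℂ) : fn (φ + ψ) z = fn φ z + fn ψ z := by
  by_cases h : z ∈ ball (0 : ℂ) r
  · rw [fn_apply _ h, fn_apply _ h, fn_apply _ h]; rfl
  · simp only [fn, dif_neg h, add_zero]

theorem fn_sub {r : ℝ} (φ ψ : Hol r) (z : ℂ) : fn (φ - ψ) z = fn φ z - fn ψ z := by
  by_cases h : z ∈ ball (0 : ℂ) r
  · rw [fn_apply _ h, fn_apply _ h, fn_apply _ h]; rfl
  · simp only [fn, dif_neg h, sub_zero]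

theorem fn_neg {r : ℝ} (φ : Hol r) (z : ℂ) : fn (-φ) z = -fn φ z := by
  by_cases h : z ∈ ball (0 : ℂ) r
  · rw [fn_apply _ h, fn_apply _ h]; rfl
  · simp only [fn, dif_neg h, neg_zero]

theorem fn_mul {r : ℝ} (φ ψ : Hol r) (z : ℂ) : fn (φ * ψ) z = fn φ z * fn ψ z := by
  by_cases h : z ∈ ball (0 : ℂ) r
  · rw [fn_apply _ h, fn_apply _ h, fn_apply _ h]; rfl
  · simp only [fn, dif_neg h, mul_zero]

theorem fn_smul {r : ℝ} (c : ℂ) (φ : Hol r) (z : ℂ) : fn (c • φ) z = c * fn φ z := by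
  by_cases h : z ∈ ball (0 : ℂ) r
  · rw [fn_apply _ h, fn_apply _ h]; rfl
  · simp only [fn, dif_neg h, mul_zero]

theorem fn_one {r : ℝ} {z : ℂ} (h : z ∈ ball (0 : ℂ) r) : fn (1 : Hol r) z = 1 := by
  rw [fn_apply _ h]; rfl

theorem fn_algebraMap {r : ℝ} (c : ℂ) {z : ℂ} (h : z ∈ ball (0 : ℂ) r) :
    fn (algebraMap ℂ (Hol r) c) z = c := by
  rw [fn_apply _ h]; rfl

theorem fn_pow {r : ℝ} (φ : Hol r) (n : ℕ) {z : ℂ} (h : z ∈ ball (0 : ℂ) r) :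
    fn (φ ^ n) z = fn φ z ^ n := by
  induction n with
  | zero => rw [pow_zero, pow_zero, fn_one h]
  | succ n ih => rw [pow_succ, fn_mul, ih, pow_succ]

theorem hol_ext {r : ℝ} {φ ψ : Hol r} (h : ∀ z ∈ ball (0 : ℂ) r, fn φ z = fn ψ z) : φ = ψ := by
  apply Subtype.ext
  funext z
  have := h z.1 z.2
  rw [fn_apply _ z.2, fn_apply _ z.2] at this
  exact this

theorem fn_differentiableOn {r : ℝ} (φ : Hol r) : DifferentiableOn ℂ (fn φ) (ball 0 r) := by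
  obtain ⟨ψ, h1, h2⟩ := φ.2
  refine h1.congr fun z hz => ?_
  rw [fn_apply _ hz]
  exact h2 ⟨z, hz⟩

/-! ### Systems -/

/-- the constant of the error terms -/
noncomputable def Ca (a : ℝ) : ℝ := 100 / (1 - a) ^ 6

/-- `1 / (1 - a z)` -/
noncomputable def Bf (a r : ℝ) : Hol r := hol r (fun z => 1 / (1 - a * z))

/-- difference quotient at `a` -/
noncomputable def dsl {r : ℝ} (h : Hol r) (a : ℝ) : Hol r := hol r (dslope (fn h) a)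

/-- the form `Re ⟨M_h n, n⟩` up to a positive error of second order -/
noncomputable def cform {H : Type} [NormedAddCommGroup H] [InnerProductSpace ℂ H] {r : ℝ}
    (Φ : Hol r →ₐ[ℂ] (H →L[ℂ] H)) (a e : ℝ) (h : Hol r) (n : H) : ℝ :=
  (inner ℂ n (Φ h n)).re + (fn h 0).re * (1 + Ca a * e ^ 2) * ‖n‖ ^ 2 +
    ((a : ℂ) * e * conj (deriv (fn h) a) * inner ℂ n (Φ (Bf a r) n)).re

/-- A functional calculus `φ ↦ φ(S)` for an operator `S = χ⁻¹(T)`, `W(T) ⊆ C₁`, with the perturbed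
Berger-Kato positivity (`pos`) and its Cauchy-Schwarz form (`ker`). -/
structure Sys (a e r : ℝ) (H : Type) [NormedAddCommGroup H] [InnerProductSpace ℂ H]
    [CompleteSpace H] where
  /-- the calculus -/
  Φ : Hol r →ₐ[ℂ] (H →L[ℂ] H)
  bdd : ∃ C : ℝ, ∀ (φ : Hol r) (M : ℝ), (∀ z ∈ closedBall (0 : ℂ) 1, ‖fn φ z‖ ≤ M) → ‖Φ φ‖ ≤ C * M
  nB : ‖Φ (Bf a r)‖ ≤ 4 / (1 - a)
  pos : ∀ h : Hol r, (∀ z ∈ closedBall (0 : ℂ) 1, 0 ≤ (fn h z).re) → ∀ n : H, 0 ≤ cform Φ a e h n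
  ker : ∀ h : Hol r, (∀ z ∈ closedBall (0 : ℂ) 1, 0 ≤ (fn h z).re) → ∃ E1 E2 : H →L[ℂ] H,
    ‖E1‖ ≤ Ca a * e * (fn h 0).re ∧ ‖E2‖ ≤ Ca a * e * (fn h 0).re ∧ ∀ n n' : H,
      ‖inner ℂ n ((Φ (Bf a r * (h + algebraMap ℂ (Hol r) (conj (fn h a)))) + E1) n') +
        inner ℂ ((Φ (h + algebraMap ℂ (Hol r) (conj (fn h 0)) + (a : ℂ) • dsl h a) + E2) n) n'‖ ≤
      2 / (1 - a) * √(cform Φ a e h n') * √(cform Φ a e h n)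

/-- hypotheses on `q` -/
structure QH {r : ℝ} (q : Hol r) : Prop where
  re_pos : ∀ z ∈ ball (0 : ℂ) r, 0 < (fn q z).re
  re_sq_pos : ∀ z ∈ ball (0 : ℂ) r, 0 < ((fn q z) ^ 2).re
  bdd : ∀ z ∈ closedBall (0 : ℂ) 1, ‖fn q z‖ ^ 2 ≤ 2

/-- `ρ = |q(0)|` -/
noncomputable def rho {r : ℝ} (q : Hol r) : ℝ := ‖fn q 0‖

/-- the normalised function `q̂ = q / ρ` -/
noncomputable def qh {r : ℝ} (q : Hol r) : Hol r := ((rho q)⁻¹ : ℂ) • q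

/-- `1 / q̂` -/
noncomputable def qi {r : ℝ} (q : Hol r) : Hol r := hol r (fun z => (fn (qh q) z)⁻¹)

/-- `j = 1 / (1 + q̂²)` -/
noncomputable def jj {r : ℝ} (q : Hol r) : Hol r := hol r (fun z => (1 + (fn (qh q) z) ^ 2)⁻¹)

/-- `ν = conj Ĥ(a)` -/
noncomputable def nu {r : ℝ} (q : Hol r) (a : ℝ) : ℂ := conj ((fn (qh q) a) ^ 2)

/-- `κ₁ = a conj Ĥ'(a)` -/
noncomputable def kap {r : ℝ} (q : Hol r) (a : ℝ) : ℂ :=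
  a * conj (deriv (fun z => (fn (qh q) z) ^ 2) a)

/-- `F = (κ₁/2) B (j + ν⁻² q̂² j)`: the first order gain is `Re ⟨F q̂ v, v⟩` -/
noncomputable def Ff {r : ℝ} (q : Hol r) (a : ℝ) : Hol r :=
  (kap q a / 2) • (Bf a r * (jj q + ((nu q a)⁻¹ ^ 2) • ((qh q) ^ 2 * jj q)))

/-- `E = (1 + s K²)⁻¹`, `K = q̂ j`, `s = (ν-1)²/ν` -/
noncomputable def Ef {r : ℝ} (q : Hol r) (a : ℝ) : Hol r :=
  hol r (fun z => (1 + ((nu q a - 1) ^ 2 / nu q a) * (fn (qh q * jj q) z) ^ 2)⁻¹)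

/-- `ψ = (κ₁/4)(1 - ν⁻²) q̂ K² / (1 + s K²)` -/
noncomputable def psi {r : ℝ} (q : Hol r) (a : ℝ) : Hol r :=
  (kap q a / 4 * (1 - (nu q a)⁻¹ ^ 2)) • (qh q * (qh q * jj q) ^ 2 * Ef q a)

/-- the function `f = q / (1 + q²/8)` -/
noncomputable def ff {r : ℝ} (q : Hol r) : Hol r :=
  hol r (fun z => fn q z / (1 + (fn q z) ^ 2 / 8))

/-! ### Abstract certificates -/

section abstract

variable {H : Type} [NormedAddCommGroup H] [InnerProductSpace ℂ H] [CompleteSpace H]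
  {𝓐 : Type} [CommRing 𝓐] [Algebra ℂ 𝓐]

/-- Basic certificate. In the paper: `j = 1/(1+q²)`, `J = q² j`, `K = q j`. -/
structure Cer (Φ : 𝓐 →ₐ[ℂ] (H →L[ℂ] H)) (q j Δ : 𝓐) (M e ρ : ℝ) : Prop where
  hj : j * (1 + q ^ 2) = 1
  nj : ‖Φ j‖ ≤ M
  nK : ‖Φ (q * j)‖ ≤ M
  nJ : ‖Φ (q ^ 2 * j)‖ ≤ M
  nq : ‖Φ q‖ ≤ M / ρ
  nΔ : ‖Φ Δ‖ ≤ M * e
  acc : ∀ x : H, 0 ≤ (inner ℂ x (Φ (q * (1 + Δ)) x)).re
  ber : ∀ x : H, -(M * e * ‖x‖ ^ 2) ≤ (inner ℂ x (Φ (1 + q ^ 2) x)).re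
  pj : ∀ x : H, -(M * e * ‖Φ j x‖ ^ 2) ≤ (inner ℂ x (Φ j x)).re
  pJ : ∀ x : H, -(M * e * ‖Φ (q ^ 2 * j) x‖ ^ 2) ≤ (inner ℂ x (Φ (q ^ 2 * j) x)).re

/-- A near-contact state: `u = q v`, `y = q* v`. -/
structure Near (Φ : 𝓐 →ₐ[ℂ] (H →L[ℂ] H)) (q j Δ : 𝓐) (M δ : ℝ) (v : H) : Prop where
  hj : j * (1 + q ^ 2) = 1
  nj : ‖Φ j‖ ≤ M
  nK : ‖Φ (q * j)‖ ≤ M
  nJ : ‖Φ (q ^ 2 * j)‖ ≤ M
  nΔ : ‖Φ Δ‖ ≤ δ
  acc : ∀ x : H, 0 ≤ (inner ℂ x (Φ (q * (1 + Δ)) x)).re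
  pj : ∀ x : H, -(δ * ‖Φ j x‖ ^ 2) ≤ (inner ℂ x (Φ j x)).re
  pJ : ∀ x : H, -(δ * ‖Φ (q ^ 2 * j) x‖ ^ 2) ≤ (inner ℂ x (Φ (q ^ 2 * j) x)).re
  nv : ‖v‖ ≤ M
  nu : ‖Φ q v‖ ≤ M
  ny : ‖(Φ q).adjoint v‖ ≤ M
  form : (inner ℂ v (Φ (q * (1 + Δ)) v)).re ≤ δ
  xi : ‖Φ q v + (Φ q).adjoint v‖ ≤ δ
  k1 : |(inner ℂ v (Φ (q ^ 2 * j) v)).re| ≤ δ
  k2 : |(inner ℂ (Φ q v) (Φ j (Φ q v))).re| ≤ δ

/-- The kernel relations for `h = q⁻²` (x-contact) and `h = q²` (u-contact).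
`b` is `Ĥ(0)`, `|b| = 1`; `L` is the difference quotient of `q²` at `a`. -/
structure KerA (Φ : 𝓐 →ₐ[ℂ] (H →L[ℂ] H)) (q qi j B L : 𝓐) (a : ℝ) (ν b : ℂ) (M δ : ℝ) :
    Prop where
  hqi : q * qi = 1
  nB : ‖Φ B‖ ≤ M
  nk : ‖Φ (B * (1 + ν⁻¹ • q ^ 2) * j)‖ ≤ M
  nl : ‖Φ (j * L)‖ ≤ M
  hb : ‖b‖ = 1
  hν : ‖ν‖ ≤ M
  hν' : ‖ν⁻¹‖ ≤ M
  hν0 : ν ≠ 0
  ha : |a| ≤ 1
  ha' : 1 ≤ M * |a|
  posx : ∀ n : H, 0 ≤ (inner ℂ n (Φ (qi ^ 2 + b • 1) n)).re + δ * ‖n‖ ^ 2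
  posu : ∀ n : H, 0 ≤ (inner ℂ n (Φ (q ^ 2 + (conj b) • 1) n)).re + δ * ‖n‖ ^ 2
  kx : ∀ n n' : H, ‖inner ℂ n (Φ (B * (qi ^ 2 + ν⁻¹ • 1)) n') +
      inner ℂ (Φ (qi ^ 2 + b • 1 - ((a : ℂ) * (conj ν)⁻¹) • (qi ^ 2 * L)) n) n'‖ ≤
    M * √((inner ℂ n' (Φ (qi ^ 2 + b • 1) n')).re + δ * ‖n'‖ ^ 2) *
      √((inner ℂ n (Φ (qi ^ 2 + b • 1) n)).re + δ * ‖n‖ ^ 2) + δ * ‖n‖ * ‖n'‖
  ku : ∀ n n' : H, ‖inner ℂ n (Φ (B * (q ^ 2 + ν • 1)) n') +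
      inner ℂ (Φ (q ^ 2 + (conj b) • 1 + (a : ℂ) • L) n) n'‖ ≤
    M * √((inner ℂ n' (Φ (q ^ 2 + (conj b) • 1) n')).re + δ * ‖n'‖ ^ 2) *
      √((inner ℂ n (Φ (q ^ 2 + (conj b) • 1) n)).re + δ * ‖n‖ ^ 2) + δ * ‖n‖ * ‖n'‖

end abstract

end C3N
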