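import Pool.Agent.Lib.MP_c3d375_an.Neg.Defs

/-!
# MP_c3d375 (S06050): the statements of the modules.  See `Paper.md` and `Blueprint.md`
-/

open Complex Metric Set Filter Topology ComplexConjugate Pool.Agent.Lib.MP_c3d375_an

namespace C3N

/-! ### Geometry -/

/-- GC1 (Paper 0.1): `C₁` is closed and convex, described by its supporting half planes. -/
def GC1Statement : Prop :=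
  ∀ a : ℝ, 1 / 2 ≤ a → a < 1 → ∃ e0 : ℝ, 0 < e0 ∧ ∀ e : ℝ, 0 < e → e < e0 →
    IsClosed (C1 a e) ∧ Convex ℝ (C1 a e) ∧
    (∀ w : ℂ, w ∈ C1 a e ↔
      ∀ ζ : ℂ, ‖ζ‖ = 1 → 0 ≤ (conj (ζ * chid a e ζ) * (chi a e ζ - w)).re) ∧
    interior (C1 a e) = chi a e '' ball 0 1

/-- GIN (Paper 0.1): the inverse of `χ`. -/
def GINStatement : Prop :=
  ∀ a : ℝ, 1 / 2 ≤ a → a < 1 → ∃ e0 : ℝ, 0 < e0 ∧ ∀ e : ℝ, 0 < e → e < e0 →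
    ∃ g : ℂ → ℂ, DifferentiableOn ℂ g {w : ℂ | w.re < 1 / a} ∧
      (∀ w : ℂ, w.re < 1 / a → (g w).re < 1 / a ∧ chi a e (g w) = w) ∧
      (∀ z : ℂ, z.re < 1 / a → (chi a e z).re < 1 / a → g (chi a e z) = z) ∧
      (∀ z : ℂ, ‖z‖ ≤ 1 → (chi a e z).re < 1 / a)

/-- the function `q = 2w/(1+√(1-w²/2))` on `C₂` -/
noncomputable def qf (w : ℂ) : ℂ :=
  2 * w / (1 + Pool.Agent.Lib.MP_c3d375_an.sq (1 - w ^ 2 / 2))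

/-- GC2 (Paper 0.2). -/
def GC2Statement : Prop :=
  IsClosed C2 ∧ Convex ℝ C2 ∧ IsCompact C2 ∧ (1 / 4 : ℂ) ∈ interior C2 ∧
  DifferentiableOn ℂ qf (interior C2) ∧
  (∀ w ∈ interior C2, 0 < (qf w).re ∧ 0 < ((qf w) ^ 2).re ∧ ‖qf w‖ ^ 2 ≤ 2 ∧
    w = qf w / (1 + (qf w) ^ 2 / 8)) ∧
  (∀ q : ℂ, 0 ≤ q.re → 0 ≤ (q ^ 2).re → q / (1 + 2 * q ^ 2) ∈ C2)

/-! ### Systems -/

/-- The calculus of an operator `T = Φ(χ)` with `W(T) ⊆ C₁`, `σ(T) ⊆ interior C₁`. -/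
structure Sys0 (a e r : ℝ) (H : Type) [NormedAddCommGroup H] [InnerProductSpace ℂ H]
    [CompleteSpace H] where
  /-- the calculus -/
  Φ : Hol r →ₐ[ℂ] (H →L[ℂ] H)
  bdd : ∃ C : ℝ, ∀ (φ : Hol r) (M : ℝ), (∀ z ∈ closedBall (0 : ℂ) 1, ‖fn φ z‖ ≤ M) → ‖Φ φ‖ ≤ C * M
  nB : ‖Φ (Bf a r)‖ ≤ 4 / (1 - a)
  inv : ∀ ζ : ℂ, ‖ζ‖ = 1 → IsUnit (Φ (hol r (fun z => ζ - z)))
  num : ∀ x : H, ‖x‖ = 1 → inner ℂ x (Φ (hol r (chi a e)) x) ∈ C1 a e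

/-- SYA (Paper 1): construction of the calculus. `S = g(T)`, `Φ φ = ∑ φₙ Sⁿ`. -/
def SYAStatement : Prop :=
  ∀ a : ℝ, 1 / 2 ≤ a → a < 1 → ∃ e0 : ℝ, 0 < e0 ∧ ∀ e : ℝ, 0 < e → e < e0 →
    ∀ (H : Type) [NormedAddCommGroup H] [InnerProductSpace ℂ H] [CompleteSpace H]
      (T : H →L[ℂ] H), (∀ x : H, ‖x‖ = 1 → inner ℂ x (T x) ∈ C1 a e) →
      spectrum ℂ T ⊆ interior (C1 a e) → ∀ r : ℝ, 1 < r → r ≤ (1 + a) / (2 * a) →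
      ∃ S : Sys0 a e r H, S.Φ (hol r (chi a e)) = T

/-- POS (Paper 1.1): the perturbed Berger-Kato positivity. -/
def POSStatement : Prop :=
  ∀ a : ℝ, 1 / 2 ≤ a → a < 1 → ∃ e0 : ℝ, 0 < e0 ∧ ∀ e : ℝ, 0 < e → e < e0 →
    ∀ (H : Type) [NormedAddCommGroup H] [InnerProductSpace ℂ H] [CompleteSpace H] (r : ℝ),
      1 < r → r ≤ (1 + a) / (2 * a) → ∀ (S : Sys0 a e r H) (h : Hol r),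
      (∀ z ∈ closedBall (0 : ℂ) 1, 0 ≤ (fn h z).re) → ∀ n : H, 0 ≤ cform S.Φ a e h n

/-- KRN (Paper 1.2): the Cauchy-Schwarz (kernel) inequality. -/
def KRNStatement : Prop :=
  ∀ a : ℝ, 1 / 2 ≤ a → a < 1 → ∃ e0 : ℝ, 0 < e0 ∧ ∀ e : ℝ, 0 < e → e < e0 →
    ∀ (H : Type) [NormedAddCommGroup H] [InnerProductSpace ℂ H] [CompleteSpace H] (r : ℝ),
      1 < r → r ≤ (1 + a) / (2 * a) → ∀ (S : Sys0 a e r H) (h : Hol r),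
      (∀ z ∈ closedBall (0 : ℂ) 1, 0 ≤ (fn h z).re) → ∃ E1 E2 : H →L[ℂ] H,
      ‖E1‖ ≤ Ca a * e * (fn h 0).re ∧ ‖E2‖ ≤ Ca a * e * (fn h 0).re ∧ ∀ n n' : H,
      ‖inner ℂ n ((S.Φ (Bf a r * (h + algebraMap ℂ (Hol r) (conj (fn h a)))) + E1) n') +
        inner ℂ ((S.Φ (h + algebraMap ℂ (Hol r) (conj (fn h 0)) + (a : ℂ) • dsl h a) + E2) n) n'‖ ≤
      2 / (1 - a) * √(cform S.Φ a e h n') * √(cform S.Φ a e h n)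

/-- CAL (Paper 1): compatibility of the calculus with the polynomial calculus of `T`. -/
def CALStatement : Prop :=
  ∀ a : ℝ, 1 / 2 ≤ a → a < 1 → ∃ e0 : ℝ, 0 < e0 ∧ ∀ e : ℝ, 0 < e → e < e0 →
    ∀ (H : Type) [NormedAddCommGroup H] [InnerProductSpace ℂ H] [CompleteSpace H]
      (T : H →L[ℂ] H), spectrum ℂ T ⊆ interior (C1 a e) → ∀ r : ℝ, 1 < r → r ≤ (1 + a) / (2 * a) →
      ∀ Φ : Hol r →ₐ[ℂ] (H →L[ℂ] H),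
      (∃ C : ℝ, ∀ (φ : Hol r) (M : ℝ), (∀ z ∈ closedBall (0 : ℂ) 1, ‖fn φ z‖ ≤ M) →
        ‖Φ φ‖ ≤ C * M) → Φ (hol r (chi a e)) = T →
      ∀ (f : ℂ → ℂ) (V U : Set ℂ) (A : H →L[ℂ] H), IsOpen V → C1 a e ⊆ V →
        DifferentiableOn ℂ f V → IsOpen U → spectrum ℂ T ⊆ U → Calc T U f A →
        ∀ φ : Hol r, (∀ z ∈ closedBall (0 : ℂ) 1, fn φ z = f (chi a e z)) → Φ φ = A

/-- RED (Paper 1): reduction of the upper bound to systems. -/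
def REDStatement : Prop :=
  ∀ a : ℝ, 1 / 2 ≤ a → a < 1 → ∃ e0 : ℝ, 0 < e0 ∧ ∀ e : ℝ, 0 < e → e < e0 →
    ∀ w ∈ W (C1 a e) C2, ∀ ε : ℝ, 0 < ε →
    ∃ (H : Type) (_ : NormedAddCommGroup H) (_ : InnerProductSpace ℂ H) (_ : CompleteSpace H)
      (r : ℝ) (_ : 1 < r) (_ : r ≤ (1 + a) / (2 * a)) (S : Sys a e r H) (q : Hol r) (x : H),
      QH q ∧ ‖x‖ = 1 ∧ ‖inner ℂ x (S.Φ (ff q) x) - w‖ ≤ ε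

/-- P1 (Paper 1.3): bounded calculus with an absolute constant. -/
def P1Statement : Prop :=
  ∀ a : ℝ, 1 / 2 ≤ a → a < 1 → ∃ e0 : ℝ, 0 < e0 ∧ ∀ e : ℝ, 0 < e → e < e0 →
    ∀ (H : Type) [NormedAddCommGroup H] [InnerProductSpace ℂ H] [CompleteSpace H] (r : ℝ),
      1 < r → r ≤ (1 + a) / (2 * a) → ∀ (S : Sys a e r H) (φ : Hol r) (M : ℝ),
      (∀ z ∈ closedBall (0 : ℂ) 1, ‖fn φ z‖ ≤ M) → ‖S.Φ φ‖ ≤ 11 * M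

/-- GM (Paper 1.4): geometric means. `rr² A2 = A1`, `κ = (A2 rr)⁻¹`. -/
def GMStatement : Prop :=
  ∀ (H : Type) [NormedAddCommGroup H] [InnerProductSpace ℂ H] [CompleteSpace H] (r : ℝ), 1 < r →
    ∀ Φ : Hol r →ₐ[ℂ] (H →L[ℂ] H),
    (∃ C : ℝ, ∀ (φ : Hol r) (M : ℝ), (∀ z ∈ closedBall (0 : ℂ) 1, ‖fn φ z‖ ≤ M) →
      ‖Φ φ‖ ≤ C * M) →
    ∀ A1 A2 rr κ : Hol r, rr ^ 2 * A2 = A1 → A2 * rr * κ = 1 →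
    (∀ z ∈ closedBall (0 : ℂ) 1, 0 < (fn κ z).re) →
    (∀ x : H, 0 ≤ (inner ℂ x (Φ A1 x)).re) → (∀ x : H, 0 ≤ (inner ℂ x (Φ A2 x)).re) →
    ∀ x : H, 0 ≤ (inner ℂ x (Φ rr x)).re

/-- NU (Paper 1.5): scalar facts (Harnack, Schwarz-Pick). -/
def NUStatement : Prop :=
  ∀ a : ℝ, 1 / 2 ≤ a → a < 1 → ∀ (r : ℝ), 1 < r → r ≤ (1 + a) / (2 * a) → ∀ q : Hol r, QH q →
    0 < rho q ∧ rho q ≤ 3 / 2 ∧ (∀ z : ℂ, fn (qh q) z = ((rho q)⁻¹ : ℂ) * fn q z) ∧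
    ‖fn (qh q) 0‖ = 1 ∧
    0 < (nu q a).re ∧ ‖nu q a‖ ≤ 3 / (1 - a) ∧ ‖(nu q a)⁻¹‖ ≤ 3 / (1 - a) ∧
    ‖kap q a‖ ≤ 2 * a * (nu q a).re / (1 - a ^ 2) ∧
    ‖kap q a * (nu q a)⁻¹ ^ 2‖ ≤ 2 * a * ((nu q a)⁻¹).re / (1 - a ^ 2) ∧
    (1 / 2 ≤ ((fn (qh q) 0) ^ 2).re →
      ‖(nu q a - 1) / (nu q a + 1)‖ ^ 2 ≤ 1 - (1 - a) ^ 3 / 20) ∧
    (∀ z ∈ ball (0 : ℂ) r, fn (qi q) z = (fn (qh q) z)⁻¹ ∧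
      fn (jj q) z = (1 + (fn (qh q) z) ^ 2)⁻¹ ∧
      fn (Bf a r) z = 1 / (1 - a * z) ∧ ‖fn (Bf a r) z‖ ≤ 2 / (1 - a) ∧
      fn (Ef q a) z = (1 + ((nu q a - 1) ^ 2 / nu q a) * (fn (qh q * jj q) z) ^ 2)⁻¹ ∧
      1 + ((nu q a - 1) ^ 2 / nu q a) * (fn (qh q * jj q) z) ^ 2 ≠ 0 ∧
      fn (ff q) z = fn q z / (1 + (fn q z) ^ 2 / 8))

/-- CRU (Paper 1.6, crude form): `p(1+Δ)` accretive for `p` with values in the sector. -/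
def CRUStatement : Prop :=
  ∀ a : ℝ, 1 / 2 ≤ a → a < 1 → ∃ C : ℝ, 0 < C ∧ ∃ e0 : ℝ, 0 < e0 ∧ ∀ e : ℝ, 0 < e → e < e0 →
    ∀ (H : Type) [NormedAddCommGroup H] [InnerProductSpace ℂ H] [CompleteSpace H] (r : ℝ),
      1 < r → r ≤ (1 + a) / (2 * a) → ∀ (S : Sys a e r H) (p : Hol r),
      (∀ z ∈ ball (0 : ℂ) r, 0 < (fn p z).re ∧ 0 < ((fn p z) ^ 2).re) →
      ∃ Δ : Hol r, ‖S.Φ Δ‖ ≤ C * e ∧ ∀ x : H, 0 ≤ (inner ℂ x (S.Φ (p * (1 + Δ)) x)).re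

/-- MI (Paper 1.6): the precise inequality with tilt. `C`, `T0` do not depend on `a`. -/
def MIStatement : Prop :=
  ∃ C : ℝ, 0 < C ∧ ∃ T0 : ℝ, 0 < T0 ∧ ∀ a : ℝ, 1 / 2 ≤ a → a < 1 →
    ∃ C' : ℝ, 0 < C' ∧ ∃ e0 : ℝ, 0 < e0 ∧ ∀ e : ℝ, 0 < e → e < e0 →
    ∀ (H : Type) [NormedAddCommGroup H] [InnerProductSpace ℂ H] [CompleteSpace H] (r : ℝ),
      1 < r → r ≤ (1 + a) / (2 * a) → ∀ (S : Sys a e r H) (q : Hol r), QH q →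
      ∀ T : ℝ, |T| ≤ T0 → ∀ x : H,
        -((C * T ^ 2 + C' * (e ^ 2 + e * |T|)) * ‖S.Φ (qh q) x‖ * ‖x‖) ≤
          ((1 - T / 2 * I) * inner ℂ x (S.Φ (qh q) x)).re +
            e * (inner ℂ x (S.Φ (Ff q a * qh q) x)).re

/-- CER (Paper 2): the basic certificate for a system. -/
def CERStatement : Prop :=
  ∀ a : ℝ, 1 / 2 ≤ a → a < 1 → ∃ M : ℝ, 2 ≤ M ∧ ∃ e0 : ℝ, 0 < e0 ∧ ∀ e : ℝ, 0 < e → e < e0 →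
    ∀ (H : Type) [NormedAddCommGroup H] [InnerProductSpace ℂ H] [CompleteSpace H] (r : ℝ),
      1 < r → r ≤ (1 + a) / (2 * a) → ∀ (S : Sys a e r H) (q : Hol r), QH q →
      ∃ Δ : Hol r, Cer S.Φ (qh q) (jj q) Δ M e (rho q)

/-- KER (Paper 4.3): the kernel relations for a system. -/
def KERStatement : Prop :=
  ∀ a : ℝ, 1 / 2 ≤ a → a < 1 → ∃ M : ℝ, 2 ≤ M ∧ ∃ e0 : ℝ, 0 < e0 ∧ ∀ e : ℝ, 0 < e → e < e0 →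
    ∀ (H : Type) [NormedAddCommGroup H] [InnerProductSpace ℂ H] [CompleteSpace H] (r : ℝ),
      1 < r → r ≤ (1 + a) / (2 * a) → ∀ (S : Sys a e r H) (q : Hol r), QH q →
      KerA S.Φ (qh q) (qi q) (jj q) (Bf a r) (dsl (qh q ^ 2) a) a (nu q a) ((fn (qh q) 0) ^ 2)
        M (M * e)

/-- BND (Paper 4.4, 4.5): norm bounds for a system. -/
def BNDStatement : Prop :=
  ∀ a : ℝ, 1 / 2 ≤ a → a < 1 → ∃ M : ℝ, 2 ≤ M ∧ ∃ e0 : ℝ, 0 < e0 ∧ ∀ e : ℝ, 0 < e → e < e0 →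
    ∀ (H : Type) [NormedAddCommGroup H] [InnerProductSpace ℂ H] [CompleteSpace H] (r : ℝ),
      1 < r → r ≤ (1 + a) / (2 * a) → ∀ (S : Sys a e r H) (q : Hol r), QH q →
      (∀ N : ℕ, ‖S.Φ (qh q * jj q * (1 - qh q * jj q) ^ N)‖ ≤ M / (N + 1)) ∧
      Ef q a * (1 + ((nu q a - 1) ^ 2 / nu q a) • (qh q * jj q) ^ 2) = 1 ∧
      (1 / 2 ≤ ((fn (qh q) 0) ^ 2).re →
        ∀ N : ℕ, ‖S.Φ ((1 - 2 * jj q) ^ (2 * N) * Ef q a)‖ ≤ M)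

/-- PB (Paper 5 (B)): `|ψ| ≤ C (1-a)^{-3/2}`. -/
def PBStatement : Prop :=
  ∃ C : ℝ, 0 < C ∧ ∀ a : ℝ, 1 / 2 ≤ a → a < 1 → ∀ (r : ℝ), 1 < r → r ≤ (1 + a) / (2 * a) →
    ∀ q : Hol r, QH q → ∀ z ∈ closedBall (0 : ℂ) 1,
      ‖fn (psi q a) z‖ ≤ C * (1 - a) ^ (-(3 / 2 : ℝ))

/-- PA (Paper 5 (A)): `F_A = q̂/(1-a²) + λ/q̂ - ψ` has values in the open sector. -/
def PAStatement : Prop :=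
  ∀ a : ℝ, 1 / 2 ≤ a → a < 1 → ∃ l : ℝ, 0 < l ∧ ∀ (r : ℝ), 1 < r → r ≤ (1 + a) / (2 * a) →
    ∀ q : Hol r, QH q → ∀ z ∈ ball (0 : ℂ) r,
      0 < (fn (((1 / (1 - a ^ 2) : ℝ) : ℂ) • qh q + ((l : ℝ) : ℂ) • qi q - psi q a) z).re ∧
      0 < ((fn (((1 / (1 - a ^ 2) : ℝ) : ℂ) • qh q + ((l : ℝ) : ℂ) • qi q - psi q a) z) ^ 2).re

/-! ### Abstract Hilbert space modules -/

/-- LP (Paper 3). -/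
def LPStatement : Prop :=
  ∀ M θ : ℝ, 0 < M → 0 < θ → ∃ Λ : ℝ, 0 < Λ ∧
    ∀ (H : Type) [NormedAddCommGroup H] [InnerProductSpace ℂ H] [CompleteSpace H]
      (𝓐 : Type) [CommRing 𝓐] [Algebra ℂ 𝓐] (Φ : 𝓐 →ₐ[ℂ] (H →L[ℂ] H)) (q j Δ : 𝓐) (e ρ : ℝ),
      0 < e → 0 < ρ → ρ ≤ M → Cer Φ q j Δ M e ρ → ∀ v : H, ‖v‖ ≤ M →
      (inner ℂ v (Φ q v)).re + θ * ρ ^ 2 * (inner ℂ (Φ q v) (Φ q (Φ q v))).re ≤ 0 →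
      ρ ^ 2 * ‖Φ q v‖ ≤ Λ * e

/-- ZN (Paper 4): the zone. -/
def ZNStatement : Prop :=
  ∀ M θ δ Y : ℝ, 1 ≤ M → 0 < θ → 0 < δ → 0 < Y → ∃ C : ℝ, 1 ≤ C ∧ ∃ e0 : ℝ, 0 < e0 ∧
    ∀ (H : Type) [NormedAddCommGroup H] [InnerProductSpace ℂ H] [CompleteSpace H]
      (𝓐 : Type) [CommRing 𝓐] [Algebra ℂ 𝓐] (Φ : 𝓐 →ₐ[ℂ] (H →L[ℂ] H)) (q j Δ : 𝓐) (e ρ : ℝ),
      0 < e → e < e0 → 0 < ρ → ρ ≤ M → Cer Φ q j Δ M e ρ → ∀ x v : H, ‖x‖ = 1 → ‖v‖ ≤ M →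
      x = v + ((θ * ρ ^ 2 : ℝ) : ℂ) • Φ (q ^ 2) v →
      (inner ℂ x (Φ ((ρ : ℂ) • q) v)).re < -(δ * e ^ (3 / 2 : ℝ)) →
      |(inner ℂ x (Φ ((ρ : ℂ) • q) v)).im| ≤ Y * e →
      ρ ≤ C * √e ∧ √e ≤ C * ρ ∧ 1 ≤ C * ‖Φ q v‖ ∧ ‖Φ q v‖ ≤ 1 + C * √√e ∧ ‖v‖ ≤ 1 + C * √e ∧
      |(inner ℂ v (Φ q v)).re| ≤ C * e ∧ ‖inner ℂ v (Φ q v)‖ ≤ C * √e ∧
      Near Φ q j Δ C (C * √√e) v

/-- INV (Paper 4.1). -/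
def INVStatement : Prop :=
  ∀ (M ε : ℝ) (n : ℕ), 0 < M → 0 < ε → ∃ δ : ℝ, 0 < δ ∧
    ∀ (H : Type) [NormedAddCommGroup H] [InnerProductSpace ℂ H] [CompleteSpace H]
      (𝓐 : Type) [CommRing 𝓐] [Algebra ℂ 𝓐] (Φ : 𝓐 →ₐ[ℂ] (H →L[ℂ] H)) (q j Δ : 𝓐) (v : H),
      Near Φ q j Δ M δ v →
      ‖(Φ (q ^ 2 * j) + (Φ (q ^ 2 * j)).adjoint) (((Φ (q * j)).adjoint ^ n) v)‖ ≤ ε ∧
      ‖(Φ j + (Φ j).adjoint) (((Φ (q * j)).adjoint ^ n) (Φ q v))‖ ≤ ε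

/-- KK (Paper 4.2). -/
def KKStatement : Prop :=
  ∀ (M ε : ℝ) (n : ℕ), 0 < M → 0 < ε → ∃ δ : ℝ, 0 < δ ∧
    ∀ (H : Type) [NormedAddCommGroup H] [InnerProductSpace ℂ H] [CompleteSpace H]
      (𝓐 : Type) [CommRing 𝓐] [Algebra ℂ 𝓐] (Φ : 𝓐 →ₐ[ℂ] (H →L[ℂ] H)) (q j Δ : 𝓐) (v : H),
      Near Φ q j Δ M δ v →
      ‖Φ ((q * j) ^ n) v - ((Φ (q * j)).adjoint ^ n) v‖ ≤ ε ∧
      ‖Φ ((q * j) ^ n) (Φ q v) - ((Φ (q * j)).adjoint ^ n) (Φ q v)‖ ≤ ε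

/-- RX (Paper 4.3): the contact relations. `k = B(1+ν⁻¹q²)j`, `l = jL`. -/
def RXStatement : Prop :=
  ∀ M G ε : ℝ, 0 < M → 0 < G → 0 < ε → ∃ δ : ℝ, 0 < δ ∧
    ∀ (H : Type) [NormedAddCommGroup H] [InnerProductSpace ℂ H] [CompleteSpace H]
      (𝓐 : Type) [CommRing 𝓐] [Algebra ℂ 𝓐] (Φ : 𝓐 →ₐ[ℂ] (H →L[ℂ] H)) (q qi j B L Δ : 𝓐)
      (a : ℝ) (ν b : ℂ) (v : H), Near Φ q j Δ M δ v → KerA Φ q qi j B L a ν b M δ →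
      ∀ g : 𝓐, ‖Φ g‖ ≤ G →
      ‖inner ℂ (Φ (q * j) (Φ q v)) (Φ (g * (B * (1 + ν⁻¹ • q ^ 2) * j)) v) +
        inner ℂ v (Φ (g * (q * j)) (Φ q v)) -
        (a / ν) * inner ℂ (Φ (j * L) v) (Φ (g * (q * j)) (Φ q v))‖ ≤ ε ∧
      ‖inner ℂ (Φ (q * j) v) (Φ (g * (B * (1 + ν⁻¹ • q ^ 2) * j)) (Φ q v)) +
        ν⁻¹ * inner ℂ (Φ q v) (Φ (g * (q * j)) v) +
        (a / ν) * inner ℂ (Φ (j * L) (Φ q v)) (Φ (g * (q * j)) v)‖ ≤ ε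

/-- CE (Paper 4.4). -/
def CEStatement : Prop :=
  ∀ (M ε : ℝ) (n : ℕ), 0 < M → 0 < ε → ∃ δ : ℝ, 0 < δ ∧
    ∀ (H : Type) [NormedAddCommGroup H] [InnerProductSpace ℂ H] [CompleteSpace H]
      (𝓐 : Type) [CommRing 𝓐] [Algebra ℂ 𝓐] (Φ : 𝓐 →ₐ[ℂ] (H →L[ℂ] H)) (q qi j B L Δ : 𝓐)
      (a : ℝ) (ν b : ℂ) (v : H), Near Φ q j Δ M δ v → KerA Φ q qi j B L a ν b M δ →
      (∀ N : ℕ, ‖Φ (q * j * (1 - q * j) ^ N)‖ ≤ M / (N + 1)) →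
      ‖inner ℂ (Φ q v) (Φ ((q * j) ^ (n + 1)) v)‖ ≤ ε ∧
      ‖inner ℂ (Φ q v) (Φ ((q * j) ^ (n + 1) * (B * (1 + ν⁻¹ • q ^ 2) * j)) v)‖ ≤ ε ∧
      ‖inner ℂ v (Φ ((q * j) ^ (n + 1) * (B * (1 + ν⁻¹ • q ^ 2) * j)) v) -
        (1 + ν⁻¹) / 2 * inner ℂ v (Φ ((q * j) ^ (n + 1)) v)‖ ≤ ε ∧
      ‖inner ℂ (Φ q v) (Φ ((q * j) ^ (n + 1) * (B * (1 + ν⁻¹ • q ^ 2) * j)) (Φ q v)) -
        (1 + ν⁻¹) / 2 * inner ℂ (Φ q v) (Φ ((q * j) ^ (n + 1)) (Φ q v))‖ ≤ ε ∧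
      ‖inner ℂ v (Φ ((q * j) ^ (n + 1)) v) -
        inner ℂ (Φ q v) (Φ ((q * j) ^ (n + 1)) (Φ q v))‖ ≤ ε

/-- CLT (Paper 4.5). -/
def CLTStatement : Prop :=
  ∀ M ε : ℝ, 1 ≤ M → 0 < ε → ∃ δ : ℝ, 0 < δ ∧
    ∀ (H : Type) [NormedAddCommGroup H] [InnerProductSpace ℂ H] [CompleteSpace H]
      (𝓐 : Type) [CommRing 𝓐] [Algebra ℂ 𝓐] (Φ : 𝓐 →ₐ[ℂ] (H →L[ℂ] H)) (q qi j B L Δ E : 𝓐)
      (a : ℝ) (ν b κ : ℂ) (v : H), Near Φ q j Δ M δ v → KerA Φ q qi j B L a ν b M δ →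
      (∀ N : ℕ, ‖Φ (q * j * (1 - q * j) ^ N)‖ ≤ M / (N + 1)) →
      ‖inner ℂ v (Φ q v)‖ ≤ δ → ‖κ‖ ≤ M →
      ‖(ν - 1) / (ν + 1)‖ ^ 2 ≤ 1 - 1 / M → ν + 1 ≠ 0 →
      E * (1 + ((ν - 1) ^ 2 / ν) • (q * j) ^ 2) = 1 →
      (∀ N : ℕ, ‖Φ ((1 - 2 * j) ^ (2 * N) * E)‖ ≤ M) →
      ‖inner ℂ v (Φ ((κ / 2) • (B * (j + (ν⁻¹ ^ 2) • (q ^ 2 * j)))) (Φ q v)) -
        inner ℂ (Φ q v) (Φ ((κ / 4 * (1 - ν⁻¹ ^ 2)) • (q * (q * j) ^ 2 * E)) (Φ q v))‖ ≤ ε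

/-! ### Upper bound -/

/-- UBC (Paper 6): upper bound for systems. -/
def UBCStatement : Prop :=
  ∃ C0 : ℝ, 0 < C0 ∧ ∀ a : ℝ, 1 / 2 ≤ a → a < 1 → ∀ Y : ℝ, C0 * (1 - a) ^ (-(5 / 4 : ℝ)) ≤ Y →
    ∀ δ : ℝ, 0 < δ → ∃ e0 : ℝ, 0 < e0 ∧ ∀ e : ℝ, 0 < e → e < e0 →
    ∀ (H : Type) [NormedAddCommGroup H] [InnerProductSpace ℂ H] [CompleteSpace H] (r : ℝ),
      1 < r → r ≤ (1 + a) / (2 * a) → ∀ (S : Sys a e r H) (q : Hol r), QH q →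
      ∀ x : H, ‖x‖ = 1 → Y * e ≤ |(inner ℂ x (S.Φ (ff q) x)).im| →
      |(inner ℂ x (S.Φ (ff q) x)).im| ≤ 2 * Y * e →
      -(δ * e ^ (3 / 2 : ℝ)) ≤ (inner ℂ x (S.Φ (ff q) x)).re

/-- UB: the upper bound for `W`. -/
def UBStatement : Prop :=
  ∃ C0 : ℝ, 0 < C0 ∧ ∀ a : ℝ, 1 / 2 ≤ a → a < 1 → ∀ Y : ℝ, C0 * (1 - a) ^ (-(5 / 4 : ℝ)) ≤ Y →
    ∀ δ : ℝ, 0 < δ → ∃ e0 : ℝ, 0 < e0 ∧ ∀ e : ℝ, 0 < e → e < e0 →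
    ∀ w ∈ W (C1 a e) C2, w.im = 3 / 2 * Y * e → -(δ * e ^ (3 / 2 : ℝ)) ≤ w.re

/-! ### Lower bounds -/

/-- CMP (Paper 7): membership in `W` through a function on the disc. -/
def FARStatement : Prop :=
  ∀ a : ℝ, 1 / 2 ≤ a → a < 1 → ∃ e0 : ℝ, 0 < e0 ∧ ∀ e : ℝ, 0 < e → e < e0 →
    ∃ w ∈ W (C1 a e) C2, w.im = (1 - a) ^ (-(4 / 3 : ℝ)) * e ∧
      w.re ≤ 8 * (1 - a) ^ (-2 : ℝ) * e ^ (3 / 2 : ℝ)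

/-- TW (Paper 7): the numerical range of the 2x2 matrix `[[χ(-1), -κ], [κ, χ(1)]]`,
`κ = √(1-a²)/a`, lies in `C₁`. -/
def TWStatement : Prop :=
  ∀ a : ℝ, 19 / 20 ≤ a → a < 1 → ∃ e0 : ℝ, 0 < e0 ∧ ∀ e : ℝ, 0 < e → e < e0 →
    ∀ x y : ℂ, ‖x‖ ^ 2 + ‖y‖ ^ 2 = 1 →
      (chi a e (-1)) * ‖x‖ ^ 2 + (chi a e 1) * ‖y‖ ^ 2 +
        ((√(1 - a ^ 2) / a : ℝ) : ℂ) * (conj y * x - conj x * y) ∈ C1 a e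

/-- the value at the tip: `w(e) = ((1+D)F(s₋) - (D-1)F(s₊))/2`, `F(z) = G(ρ √((1+z)/(1-z)))`,
`G(q) = q/(1+2q²)`, with the real eigenvalues `λ± = μ ± d` of the matrix and `s± = g(λ±)`. -/
def TAStatement : Prop :=
  ∀ a : ℝ, 19 / 20 ≤ a → a < 1 → ∃ e0 : ℝ, 0 < e0 ∧ ∀ e : ℝ, 0 < e → e < e0 →
    ∃ sp sm d : ℝ, -1 < sm ∧ sm < sp ∧ sp < 1 ∧ 0 < d ∧
      chi a e sp = (chi a e 1 + chi a e (-1)) / 2 + d ∧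
      chi a e sm = (chi a e 1 + chi a e (-1)) / 2 - d ∧
      ((d : ℂ)) ^ 2 = ((chi a e 1 - chi a e (-1)) / 2) ^ 2 - (1 - (a : ℂ) ^ 2) / a ^ 2 ∧
      let D : ℝ := ((chi a e 1 - chi a e (-1)) / 2).re / d
      let ρ : ℝ := √(e / (16 * (1 - a ^ 2)))
      let F : ℝ → ℝ := fun s => ρ * √((1 + s) / (1 - s)) / (1 + 2 * (ρ * √((1 + s) / (1 - s))) ^ 2)
      ((1 + D) * F sm - (D - 1) * F sp) / 2 ≤ -(a / 20 * (1 - a ^ 2) ^ (-2 : ℝ) * e ^ (3 / 2 : ℝ))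

/-- TIP (Paper 7). -/
def TIPStatement : Prop :=
  ∀ a : ℝ, 19 / 20 ≤ a → a < 1 → ∃ e0 : ℝ, 0 < e0 ∧ ∀ e : ℝ, 0 < e → e < e0 →
    ∃ w ∈ W (C1 a e) C2, w.im = 0 ∧ w.re ≤ -(1 / 100 * (1 - a) ^ (-2 : ℝ) * e ^ (3 / 2 : ℝ))

end C3N
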